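import Pool.Agent.W842.BV.Stms2

/-!
# Project BV: the example for VC-dimension two on `n` points
-/

set_option autoImplicit false

open Finset

namespace Pool.Agent.W397.BV

open Pool.Agent.W842.BV

lemma three_halves (n : ℕ) : (n : ℝ) ^ (3 / 2 : ℝ) = Real.sqrt n ^ 3 := by
  rw [Real.sqrt_eq_rpow, ← Real.rpow_natCast, ← Real.rpow_mul (Nat.cast_nonneg n)]
  norm_num

theorem t_PON : S_PON := by
  intro hPOL hSIX hTRANS
  refine ⟨1 / 384, by norm_num, 36, fun n hn => ?_⟩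
  set r : ℕ := Nat.sqrt n with hr
  have hr6 : 6 ≤ r := by
    rw [hr, Nat.le_sqrt]; omega
  set m : ℕ := r / 2 with hm
  have hm3 : 3 ≤ m := by omega
  obtain ⟨q, hq, hmq, hq2⟩ := Nat.exists_prime_lt_and_le_two_mul m (by omega)
  have hqr : q ≤ r := by omega
  have hqn : q * q ≤ n := (Nat.mul_le_mul hqr hqr).trans (Nat.sqrt_le n)
  haveI : Fact q.Prime := ⟨hq⟩
  obtain ⟨H, hc, h3, hl, ht, hv⟩ := hPOL q (by omega)
  obtain ⟨H', hs, hd, hc'⟩ := hTRANS (ZMod q × ZMod q) H n 2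
    (by rw [Fintype.card_prod, ZMod.card]; exact hqn) h3
    (hSIX _ H h3 hl ht)
    (by
      intro S hS
      by_contra hcon
      rw [not_le, Finset.two_lt_card] at hcon
      obtain ⟨x, hx, y, hy, z, hz, hxy, hxz, hyz⟩ := hcon
      obtain ⟨v, hv1⟩ := hS S (Finset.Subset.refl _) ⟨x, hx⟩
      obtain ⟨v', hv2⟩ := hS {x, y} (by
        intro w hw
        rw [Finset.mem_insert, Finset.mem_singleton] at hw
        rcases hw with rfl | rfl
        · exact hx
        · exact hy) ⟨x, by simp⟩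
      have m1 : ∀ w ∈ S, w ∈ nbr H v := by
        intro w hw
        rw [← hv1] at hw
        exact (Finset.mem_inter.1 hw).1
      have m2 : ∀ w ∈ ({x, y} : Finset (ZMod q × ZMod q)), w ∈ nbr H v' := by
        intro w hw
        rw [← hv2] at hw
        exact (Finset.mem_inter.1 hw).1
      have hne : v ≠ v' := by
        intro h
        have h1 : z ∈ nbr H v' ∩ S := Finset.mem_inter.2 ⟨h ▸ m1 z hz, hz⟩
        rw [hv2, Finset.mem_insert, Finset.mem_singleton] at h1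
        rcases h1 with h1 | h1
        · exact hxz h1.symm
        · exact hyz h1.symm
      have h1 := Finset.card_le_one.1 (hv x y hxy) v (by
        rw [Finset.mem_filter]
        exact ⟨Finset.mem_univ _, m1 x hx, m1 y hy⟩) v' (by
        rw [Finset.mem_filter]
        exact ⟨Finset.mem_univ _, m2 x (by simp), m2 y (by simp)⟩)
      exact hne h1)
  refine ⟨H', hs, hd, ?_⟩
  rw [hc', hc, three_halves]
  -- the numbers
  have h1 := Nat.pow_le_choose (α := ℝ) 3 q
  have hq4 : 4 ≤ q := by omega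
  have e1 : ((q + 1 - 3 : ℕ) : ℝ) = (q : ℝ) - 2 := by
    have : q + 1 - 3 = q - 2 := by omega
    rw [this, Nat.cast_sub (by omega)]
    norm_num
  rw [e1] at h1
  have h2 : Real.sqrt n ≤ 2 * q := by
    have h3 : Real.sqrt n ≤ r + 1 := by
      rw [hr]
      have h4 : (n : ℝ) ≤ ((Nat.sqrt n : ℝ) + 1) ^ 2 := by
        have h5 := Nat.lt_succ_sqrt n
        have h6 : n ≤ (Nat.sqrt n + 1) ^ 2 := by
          rw [pow_two]; exact h5.le
        exact_mod_cast h6
      calc Real.sqrt n ≤ Real.sqrt (((Nat.sqrt n : ℝ) + 1) ^ 2) := Real.sqrt_le_sqrt h4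
        _ = (Nat.sqrt n : ℝ) + 1 := Real.sqrt_sq (by positivity)
    have h4 : r + 1 ≤ 2 * q := by omega
    have h5 : (r : ℝ) + 1 ≤ 2 * q := by exact_mod_cast h4
    linarith
  have h3 : (0 : ℝ) ≤ Real.sqrt n := Real.sqrt_nonneg _
  have h4 : (4 : ℝ) ≤ q := by exact_mod_cast hq4
  have h5 : Real.sqrt n ^ 3 ≤ (2 * q) ^ 3 := pow_le_pow_left₀ h3 h2 3
  have h6 : ((q : ℝ) / 2) ^ 3 ≤ ((q : ℝ) - 2) ^ 3 :=
    pow_le_pow_left₀ (by positivity) (by linarith) 3
  have h7 : ((Nat.factorial 3 : ℕ) : ℝ) = 6 := by norm_num [Nat.factorial]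
  rw [h7] at h1
  have h8 : ((q : ℝ) / 2) ^ 3 = (q : ℝ) ^ 3 / 8 := by ring
  have h9 : (2 * (q : ℝ)) ^ 3 = 8 * (q : ℝ) ^ 3 := by ring
  rw [h8] at h6
  rw [h9] at h5
  linarith

end Pool.Agent.W397.BV
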